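import Pool.Agent.Lib.MP_b8b21d_al.SK.M2

namespace Pool.Agent.Results.MP_b8b21d_al.Equality

open PrimRank

/-- Q1: `π_K(w) = π(w)` for every field `K`, every finite rank `r`, and every word `w` in the free
group of rank `r`. -/
theorem result.{u} (K : Type u) [Field K] (r : ℕ) (w : FreeGroup (Fin r)) :
    kPrimRank K w = primRank w :=
  kPrimRank_eq_primRank K w (F1_kPrimRank_le K w)

end Pool.Agent.Results.MP_b8b21d_al.Equality
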